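import Mathlib

set_option autoImplicit false

namespace Pool.Agent.Results.MP_901b45_co.LargeRank

open Finset

/-- initial segments -/
def seg (n k : ℕ) : Finset (Fin n) := univ.filter fun i => i.val < k

lemma seg_succ {n k : ℕ} (hk : k < n) : seg n (k + 1) = insert ⟨k, hk⟩ (seg n k) := by
  ext i
  simp only [seg, mem_filter, mem_univ, true_and, mem_insert, Fin.ext_iff]
  omega

lemma notMem_seg {n k : ℕ} (hk : k < n) : (⟨k, hk⟩ : Fin n) ∉ seg n k := by
  simp [seg]

/-- the greedy vector -/
noncomputable def gr {n : ℕ} (f : Finset (Fin n) → ℤ) (i : Fin n) : ℝ :=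
  (f (seg n (i.val + 1)) : ℝ) - f (seg n i.val)

lemma gr_prefix {n : ℕ} {f : Finset (Fin n) → ℤ} (h0 : f ∅ = 0) :
    ∀ k, k ≤ n → ∑ i ∈ seg n k, gr f i = f (seg n k) := by
  intro k
  induction k with
  | zero => intro _; simp [seg, h0]
  | succ k ih =>
    intro hk
    have hk' : k < n := hk
    rw [seg_succ hk', Finset.sum_insert (notMem_seg hk'), ih (by omega), ← seg_succ hk']
    unfold gr
    ring

lemma gr_le {n : ℕ} {f : Finset (Fin n) → ℤ} (h0 : f ∅ = 0)
    (hsub : ∀ A B : Finset (Fin n), f (A ∪ B) + f (A ∩ B) ≤ f A + f B) :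
    ∀ A : Finset (Fin n), ∑ i ∈ A, gr f i ≤ f A := by
  intro A
  induction A using Finset.induction_on_max with
  | empty => simp [h0]
  | insert m s hs ih =>
    have hm : m ∉ s := fun h => lt_irrefl _ (hs m h)
    rw [Finset.sum_insert hm]
    have e1 : insert m s ∪ seg n m.val = seg n (m.val + 1) := by
      ext i
      simp only [seg, mem_union, mem_insert, mem_filter, mem_univ, true_and]
      constructor
      · rintro ((h | h) | h)
        · rw [h]; omega
        · have := hs i h
          rw [Fin.lt_def] at this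
          omega
        · omega
      · intro h
        by_cases hi : i = m
        · exact Or.inl (Or.inl hi)
        · right
          have : i.val ≠ m.val := fun h' => hi (Fin.ext h')
          omega
    have e2 : insert m s ∩ seg n m.val = s := by
      ext i
      simp only [seg, mem_inter, mem_insert, mem_filter, mem_univ, true_and]
      constructor
      · rintro ⟨h | h, h'⟩
        · rw [h] at h'; omega
        · exact h
      · intro h
        have := hs i h
        rw [Fin.lt_def] at this
        exact ⟨Or.inr h, this⟩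
    have h3 := hsub (insert m s) (seg n m.val)
    rw [e1, e2] at h3
    have h4 : ((f (seg n (m.val + 1)) + f s : ℤ) : ℝ) ≤ ((f (insert m s) + f (seg n m.val) : ℤ) : ℝ) := by
      exact_mod_cast h3
    push_cast at h4
    unfold gr at ih ⊢
    linarith

theorem result (n : ℕ) (f : Finset (Fin n) → ℤ) (h0 : f ∅ = 0) (hmono : Monotone f)
    (hsub : ∀ A B : Finset (Fin n), f (A ∪ B) + f (A ∩ B) ≤ f A + f B)
    (h2 : ∀ e : Fin n, f {e} ≤ 2)
    (hbig : ∀ A : Finset (Fin n), 2 * (A.card : ℤ) ≤ f A ∨ 2 * (n : ℤ) ≤ f A + f univ) :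
    ∃ v ∈ Set.extremePoints ℝ
        {x : Fin n → ℝ | (∀ i, 0 ≤ x i) ∧
          ∀ A : Finset (Fin n), ∑ i ∈ A, x i ≤ (f A : ℝ)},
      (∀ i, 0 ≤ 2 - v i) ∧
        ∀ A : Finset (Fin n), ∑ i ∈ A, (2 - v i) ≤ (f A : ℝ) := by
  have hnn : ∀ i, 0 ≤ gr f i := by
    intro i
    unfold gr
    have : f (seg n i.val) ≤ f (seg n (i.val + 1)) := by
      apply hmono
      intro j hj
      simp only [seg, mem_filter, mem_univ, true_and] at hj ⊢
      omega
    have : (f (seg n i.val) : ℝ) ≤ f (seg n (i.val + 1)) := by exact_mod_cast this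
    linarith
  have hle2 : ∀ i, gr f i ≤ 2 := by
    intro i
    have h := gr_le h0 hsub {i}
    rw [Finset.sum_singleton] at h
    have : (f {i} : ℝ) ≤ 2 := by exact_mod_cast h2 i
    linarith
  refine ⟨gr f, ?_, fun i => by linarith [hle2 i], ?_⟩
  · rw [mem_extremePoints]
    refine ⟨⟨hnn, gr_le h0 hsub⟩, ?_⟩
    rintro x ⟨hx0, hx⟩ y ⟨hy0, hy⟩ ⟨a, b, ha, hb, hab, hv⟩
    have key : ∀ k, k ≤ n → ∑ i ∈ seg n k, x i = f (seg n k) ∧
        ∑ i ∈ seg n k, y i = f (seg n k) := by
      intro k hk
      have h3 : a * ∑ i ∈ seg n k, x i + b * ∑ i ∈ seg n k, y i = f (seg n k) := by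
        rw [← gr_prefix h0 k hk, ← hv, Finset.mul_sum, Finset.mul_sum, ← Finset.sum_add_distrib]
        rfl
      have h4 := hx (seg n k)
      have h5 := hy (seg n k)
      have hF : (f (seg n k) : ℝ) = a * f (seg n k) + b * f (seg n k) := by
        rw [← add_mul, hab, one_mul]
      have m1 : a * ∑ i ∈ seg n k, x i ≤ a * f (seg n k) := mul_le_mul_of_nonneg_left h4 ha.le
      have m2 : b * ∑ i ∈ seg n k, y i ≤ b * f (seg n k) := mul_le_mul_of_nonneg_left h5 hb.le
      constructor
      · have : a * ∑ i ∈ seg n k, x i = a * f (seg n k) := by linarith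
        exact mul_left_cancel₀ ha.ne' this
      · have : b * ∑ i ∈ seg n k, y i = b * f (seg n k) := by linarith
        exact mul_left_cancel₀ hb.ne' this
    have fin : ∀ z : Fin n → ℝ, (∀ k, k ≤ n → ∑ i ∈ seg n k, z i = f (seg n k)) → z = gr f := by
      intro z hz
      funext i
      have h6 := hz (i.val + 1) (by omega)
      have h7 := hz i.val (by omega)
      rw [seg_succ i.2, Finset.sum_insert (notMem_seg i.2), h7, ← seg_succ i.2] at h6
      unfold gr
      have h8 : z ⟨i.val, i.2⟩ = z i := rfl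
      rw [h8] at h6
      linarith
    exact ⟨fin x fun k hk => (key k hk).1, fin y fun k hk => (key k hk).2⟩
  · intro A
    rcases hbig A with h | h
    · have h1 : ∑ i ∈ A, (2 - gr f i) ≤ ∑ _i ∈ A, (2 : ℝ) :=
        Finset.sum_le_sum fun i _ => by linarith [hnn i]
      rw [Finset.sum_const, nsmul_eq_mul] at h1
      have : ((2 * (A.card : ℤ) : ℤ) : ℝ) ≤ f A := by exact_mod_cast h
      push_cast at this
      linarith
    · have h1 : ∑ i ∈ A, (2 - gr f i) ≤ ∑ i, (2 - gr f i) :=
        Finset.sum_le_sum_of_subset_of_nonneg (subset_univ _) fun i _ _ => by linarith [hle2 i]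
      have hseg : seg n n = univ := by
        ext i; simp [seg]
      have h3 := gr_prefix (f := f) h0 n le_rfl
      rw [hseg] at h3
      have h4 : ∑ i, (2 - gr f i) = 2 * n - f univ := by
        rw [Finset.sum_sub_distrib, h3, Finset.sum_const, nsmul_eq_mul, card_univ,
          Fintype.card_fin]
        ring
      rw [h4] at h1
      have : ((2 * (n : ℤ) : ℤ) : ℝ) ≤ ((f A + f univ : ℤ) : ℝ) := by exact_mod_cast h
      push_cast at this
      linarith

end Pool.Agent.Results.MP_901b45_co.LargeRank
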